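import Mathlib

/-!
# Squad SCT, row GRK, transcendence degrees
-/

set_option autoImplicit false

namespace Pool.Agent.SCT.H65

open MvPolynomial

/-! ### transcendence degrees -/

theorem trdeg_adjoin_le65 {k Ω : Type} [Field k] [Field Ω] [Algebra k Ω] (S : Set Ω) (d : ℕ)
    (hS : Cardinal.mk S ≤ (d : Cardinal)) :
    Algebra.trdeg k (IntermediateField.adjoin k S) ≤ (d : Cardinal) := by
  let s : Set (IntermediateField.adjoin k S) := (fun x => (x : Ω)) ⁻¹' S
  have h1 : IntermediateField.adjoin k s = ⊤ := by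
    apply IntermediateField.map_injective (IntermediateField.adjoin k S).val
    rw [IntermediateField.adjoin_map, ← AlgHom.fieldRange_eq_map,
      IntermediateField.fieldRange_val]
    congr 1
    ext z
    constructor
    · rintro ⟨x, hx, rfl⟩
      exact hx
    · intro hz
      exact ⟨⟨z, IntermediateField.subset_adjoin _ _ hz⟩, hz, rfl⟩
  have h2 : Algebra.IsAlgebraic (Algebra.adjoin k s) (IntermediateField.adjoin k S) := by
    rw [← IntermediateField.isAlgebraic_adjoin_iff_top, h1, Algebra.isAlgebraic_iff_isIntegral]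
    exact Algebra.isIntegral_of_surjective IntermediateField.topEquiv.surjective
  have h3 : Algebra.trdeg k (IntermediateField.adjoin k S) ≤ Cardinal.mk s :=
    Algebra.IsAlgebraic.trdeg_le_cardinalMk k s
  refine h3.trans (le_trans ?_ hS)
  refine Cardinal.mk_le_of_injective (f := fun x : s => (⟨(x.1 : Ω), x.2⟩ : S)) ?_
  intro x y h
  have h4 : ((x.1 : IntermediateField.adjoin k S) : Ω) = y.1 := congrArg (fun z : S => (z : Ω)) h
  exact Subtype.ext (Subtype.ext h4)

/-- the field generated by one further element -/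
noncomputable def ext1 {E Ω : Type} [Field E] [Field Ω] [Algebra E Ω] (C : IntermediateField E Ω)
    (θ : Ω) : IntermediateField E Ω :=
  (IntermediateField.adjoin C {θ}).restrictScalars E

theorem le_ext1 {E Ω : Type} [Field E] [Field Ω] [Algebra E Ω] (C : IntermediateField E Ω)
    (θ : Ω) : C ≤ ext1 C θ := by
  intro z hz
  show z ∈ IntermediateField.adjoin C {θ}
  exact (IntermediateField.adjoin C {θ}).algebraMap_mem ⟨z, hz⟩

theorem mem_ext1 {E Ω : Type} [Field E] [Field Ω] [Algebra E Ω] (C : IntermediateField E Ω)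
    (θ : Ω) : θ ∈ ext1 C θ :=
  IntermediateField.subset_adjoin _ _ (Set.mem_singleton θ)

theorem trdeg_ext1 {E Ω : Type} [Field E] [Field Ω] [Algebra E Ω] (C : IntermediateField E Ω)
    (θ : Ω) (d : ℕ) (h : Algebra.trdeg E C ≤ (d : Cardinal)) :
    Algebra.trdeg E (ext1 C θ) ≤ ((d + 1 : ℕ) : Cardinal) := by
  let L' : IntermediateField C Ω := IntermediateField.adjoin C {θ}
  have h1 : Algebra.trdeg C L' ≤ ((1 : ℕ) : Cardinal) := by
    apply trdeg_adjoin_le65
    simp
  have i1 : FaithfulSMul E C :=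
    (faithfulSMul_iff_algebraMap_injective _ _).mpr (algebraMap E C).injective
  have i2 : FaithfulSMul C L' :=
    (faithfulSMul_iff_algebraMap_injective _ _).mpr (algebraMap C L').injective
  have h2 : Algebra.trdeg E C + Algebra.trdeg C L' = Algebra.trdeg E L' := trdeg_add_eq E C
  let e : (ext1 C θ) →ₐ[E] L' :=
    { toFun := fun x => ⟨x.1, x.2⟩
      map_one' := rfl
      map_mul' := fun _ _ => rfl
      map_zero' := rfl
      map_add' := fun _ _ => rfl
      commutes' := fun _ => rfl }
  have h3 : Algebra.trdeg E (ext1 C θ) ≤ Algebra.trdeg E L' :=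
    trdeg_le_of_injective e
      (fun x y hxy => Subtype.ext (congrArg (fun z : L' => (z : Ω)) hxy))
  refine h3.trans ?_
  rw [← h2]
  push_cast
  exact add_le_add h (by simpa using h1)

theorem trdeg_lt_of_transcendental {E Ω : Type} [Field E] [Field Ω] [Algebra E Ω]
    (C L : IntermediateField E Ω) (hCL : C ≤ L) (t : Ω) (ht : t ∈ L) (htr : Transcendental C t)
    (d : ℕ) (h : Algebra.trdeg E L ≤ ((d + 1 : ℕ) : Cardinal)) :
    Algebra.trdeg E C ≤ (d : Cardinal) := by
  let L' : IntermediateField C Ω := IntermediateField.extendScalars hCL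
  have i1 : FaithfulSMul E C :=
    (faithfulSMul_iff_algebraMap_injective _ _).mpr (algebraMap E C).injective
  have i2 : FaithfulSMul C L' :=
    (faithfulSMul_iff_algebraMap_injective _ _).mpr (algebraMap C L').injective
  have h2 : Algebra.trdeg E C + Algebra.trdeg C L' = Algebra.trdeg E L' := trdeg_add_eq E C
  let e : L' →ₐ[E] L :=
    { toFun := fun x => ⟨x.1, x.2⟩
      map_one' := rfl
      map_mul' := fun _ _ => rfl
      map_zero' := rfl
      map_add' := fun _ _ => rfl
      commutes' := fun _ => rfl }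
  have h3 : Algebra.trdeg E L' ≤ Algebra.trdeg E L :=
    trdeg_le_of_injective e (fun x y hxy => Subtype.ext (congrArg (fun z : L => (z : Ω)) hxy))
  have h4 : Algebra.trdeg C L' ≠ 0 := by
    intro h0
    have h5 : Algebra.IsAlgebraic C L' := trdeg_eq_zero_iff.mp h0
    have h6 : IsAlgebraic C (⟨t, ht⟩ : L') := h5.isAlgebraic _
    apply htr
    obtain ⟨p, hp0, hp⟩ := h6
    refine ⟨p, hp0, ?_⟩
    have h7 := congrArg (algebraMap L' Ω) hp
    rw [map_zero, ← Polynomial.aeval_algebraMap_apply] at h7
    exact h7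
  have h5 : 1 ≤ Algebra.trdeg C L' := Cardinal.one_le_iff_ne_zero.mpr h4
  have h6 : Algebra.trdeg E C + 1 ≤ ((d + 1 : ℕ) : Cardinal) := by
    calc Algebra.trdeg E C + 1 ≤ Algebra.trdeg E C + Algebra.trdeg C L' := add_le_add le_rfl h5
      _ = Algebra.trdeg E L' := h2
      _ ≤ _ := h3.trans h
  have h7 : Algebra.trdeg E C < Cardinal.aleph0 :=
    lt_of_le_of_lt (le_trans (self_le_add_right _ _) h6) Cardinal.natCast_lt_aleph0
  obtain ⟨m, hm⟩ := Cardinal.lt_aleph0.mp h7
  rw [hm] at h6 ⊢
  have h8 : m + 1 ≤ d + 1 := by exact_mod_cast h6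
  exact_mod_cast (by omega : m ≤ d)

end Pool.Agent.SCT.H65
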