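import Pool.Agent.SCT.StmtsP
import Pool.Agent.Helper65_SCT.TRD

/-!
# Squad SCT, row GRK: the generic rank of the matrix `N(T)`
-/

set_option autoImplicit false

namespace Pool.Agent.SCT.H65

open MvPolynomial

/-! ### two independent vectors -/

theorem minor_of_li65 {K : Type} [Field K] {a b : Fin (4 + 2) → K}
    (h : LinearIndependent K ![a, b]) : ∃ i k, a i * b k - a k * b i ≠ 0 := by
  by_contra hc
  push Not at hc
  rw [LinearIndependent.pair_iff] at h
  by_cases ha : a = 0
  · have h1 := h 1 0 (by rw [ha, smul_zero, zero_smul, add_zero])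
    exact one_ne_zero h1.1
  · have h2 : ∃ k, a k ≠ 0 := by
      by_contra h3
      push Not at h3
      exact ha (funext h3)
    obtain ⟨k, hk⟩ := h2
    have h4 := h (b k) (-(a k)) (by
      funext i
      show b k * a i + -(a k) * b i = 0
      have h5 := hc i k
      linear_combination h5)
    exact hk (neg_eq_zero.mp h4.2)

theorem li_of_minor65 {K : Type} [Field K] {a b : Fin (4 + 2) → K} {i k : Fin (4 + 2)}
    (h : a i * b k - a k * b i ≠ 0) : LinearIndependent K ![a, b] := by
  rw [LinearIndependent.pair_iff]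
  intro s t hst
  have h1 : s * a i + t * b i = 0 := congrFun hst i
  have h2 : s * a k + t * b k = 0 := congrFun hst k
  constructor
  · have h3 : s * (a i * b k - a k * b i) = 0 := by
      linear_combination b k * h1 - b i * h2
    exact (mul_eq_zero.mp h3).resolve_right h
  · have h3 : t * (a i * b k - a k * b i) = 0 := by
      linear_combination a i * h2 - a k * h1
    exact (mul_eq_zero.mp h3).resolve_right h

theorem rat_le65 {k Ω ι : Type} [Field k] [Field Ω] [Algebra k Ω] (y : ι → Ω)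
    (L : IntermediateField k Ω) (h : ∀ i, y i ∈ L) : rat k y ≤ L := by
  unfold rat
  rw [IntermediateField.adjoin_le_iff]
  rintro _ ⟨i, j, rfl⟩
  exact div_mem (h i) (h j)

theorem ratio_mem65 {k Ω ι : Type} [Field k] [Field Ω] [Algebra k Ω] (y : ι → Ω) (i j : ι) :
    y i / y j ∈ rat k y :=
  IntermediateField.subset_adjoin _ _ ⟨i, j, rfl⟩

/-! ### the core -/

theorem grk_core65 (pdt : PdtStmt) (evk : EvkStmt) (crk : CrkStmt) (hsd : HsdStmt)
    (E : Type) [Field E] [IsAlgClosed E] (f : MvPolynomial (Fin (4 + 2)) E)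
    (m : Fin (4 + 2) → Matrix (Fin (4 + 2)) (Fin (4 + 2)) E) (c : E) (hf : f.IsHomogeneous 3)
    (hns : Nonsing E 4 f) (hpf : Pf E f m c) (Ω : Type) [Field Ω] [Algebra E Ω]
    (T z1 z2 : Fin (4 + 2) → Ω) (t : Ω) (hT : T ≠ 0) (hz1 : ∀ i, z1 i ∈ rat E T)
    (hz2 : ∀ i, z2 i ∈ rat E T) (i0 k0 : Fin (4 + 2))
    (hik : z1 i0 * z2 k0 - z1 k0 * z2 i0 ≠ 0)
    (h1 : (pm E m z1).mulVec T = 0) (h2 : (pm E m z2).mulVec T = 0)
    (ht : Transcendental (rat E T) t) : DimLe E T 4 := by
  have hinf : Infinite E := IsAlgClosed.instInfinite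
  -- the point x
  obtain ⟨x, hx⟩ : ∃ x : Fin (4 + 2) → Ω, x = fun i => z1 i + t * z2 i := ⟨_, rfl⟩
  have hx' : ∀ i, x i = z1 i + t * z2 i := fun i => by rw [hx]
  have hxT : (pm E m x).mulVec T = 0 := by
    rw [hx, pm_add, pm_smul, Matrix.add_mulVec, Matrix.smul_mulVec, h1, h2, smul_zero, add_zero]
  have hdet : (pm E m x).det = 0 := Matrix.exists_mulVec_eq_zero_iff.mp ⟨T, hT, hxT⟩
  have hfx : aeval x f = 0 := by
    have h3 := pdt E f m c hpf Ω x
    rw [hdet] at h3
    have h4 : algebraMap E Ω c ≠ 0 := by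
      rw [Ne, map_eq_zero]
      exact hpf.ne
    have h5 : (aeval x f) ^ 2 = 0 := (mul_eq_zero.mp h3.symm).resolve_left h4
    exact pow_eq_zero_iff (two_ne_zero) |>.mp h5
  have hx0 : ∃ j, x j ≠ 0 := by
    by_contra hc
    push Not at hc
    apply hik
    have h3 := hc i0
    have h4 := hc k0
    rw [hx'] at h3 h4
    linear_combination z2 k0 * h3 - z2 i0 * h4
  obtain ⟨j, hj⟩ := hx0
  have hxne : x ≠ 0 := fun h => hj (by rw [h]; rfl)
  have hdim : DimLe E x 4 := hsd E Ω 4 3 f x hf hns.ne_zero hfx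
  -- kernel vectors over the field of x
  obtain ⟨xc, hxc⟩ : ∃ xc : Fin (4 + 2) → rat E x, ∀ i, ((xc i : rat E x) : Ω) = x i / x j :=
    ⟨fun i => ⟨x i / x j, ratio_mem65 x i j⟩, fun i => rfl⟩
  have hmap : (pm E m xc).map (rat E x).val = (x j)⁻¹ • pm E m x := by
    rw [← pm_map, ← pm_smul]
    congr 1
    funext i
    show ((xc i : rat E x) : Ω) = _
    rw [hxc, div_eq_inv_mul]
  have hdetc : (pm E m xc).det = 0 := by
    have h3 : (rat E x).val (pm E m xc).det = 0 := by
      rw [AlgHom.map_det]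
      show ((pm E m xc).map (rat E x).val).det = 0
      rw [hmap, Matrix.det_smul, hdet, mul_zero]
    exact (map_eq_zero (rat E x).val).mp h3
  obtain ⟨u, hu0, hu⟩ := Matrix.exists_mulVec_eq_zero_iff.mpr hdetc
  obtain ⟨u', hu', hli⟩ := evk (rat E x) (pm E m xc) (pm_diag hpf xc) (pm_alt hpf xc) u hu0 hu
  obtain ⟨p, q, hpq⟩ := minor_of_li65 hli
  have key : ∀ w : Fin (4 + 2) → rat E x, (pm E m xc).mulVec w = 0 →
      (pm E m x).mulVec (fun i => ((w i : rat E x) : Ω)) = 0 := by
    intro w hw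
    have h3 : pm E m x = (x j) • (pm E m xc).map (rat E x).val := by
      rw [hmap, smul_smul, mul_inv_cancel₀ hj, one_smul]
    rw [h3, Matrix.smul_mulVec]
    have h4 : ((pm E m xc).map (rat E x).val).mulVec (fun i => ((w i : rat E x) : Ω)) = 0 := by
      funext i
      have h5 := RingHom.map_mulVec (rat E x).val.toRingHom (pm E m xc) w i
      rw [hw] at h5
      have h6 : (rat E x).val.toRingHom ((0 : Fin (4 + 2) → rat E x) i) = 0 := map_zero _
      rw [h6] at h5
      exact h5.symm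
    rw [h4, smul_zero]
  have hU := key u hu
  have hU' := key u' hu'
  obtain ⟨U, hUd⟩ : ∃ U : Fin (4 + 2) → Ω, U = fun i => ((u i : rat E x) : Ω) := ⟨_, rfl⟩
  obtain ⟨U', hUd'⟩ : ∃ U' : Fin (4 + 2) → Ω, U' = fun i => ((u' i : rat E x) : Ω) := ⟨_, rfl⟩
  rw [← hUd] at hU
  rw [← hUd'] at hU'
  have hUm : ∀ i, U i ∈ rat E x := fun i => by rw [hUd]; exact (u i).2
  have hUm' : ∀ i, U' i ∈ rat E x := fun i => by rw [hUd']; exact (u' i).2
  have hLI : LinearIndependent Ω ![U, U'] := by
    apply li_of_minor65 (i := p) (k := q)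
    intro h3
    apply hpq
    rw [hUd, hUd'] at h3
    apply Subtype.ext
    push_cast
    exact h3
  have hnot := crk E f m c hf hns hpf Ω x hxne hfx T U U' hxT hU hU'
  have hspan : T ∈ Submodule.span Ω ({U, U'} : Set (Fin (4 + 2) → Ω)) := by
    by_contra h3
    apply hnot
    show LinearIndependent Ω (Fin.cons T ![U, U'] : Fin (2 + 1) → (Fin (4 + 2) → Ω))
    rw [linearIndependent_finCons]
    refine ⟨hLI, ?_⟩
    rw [Matrix.range_cons, Matrix.range_cons, Matrix.range_empty, Set.union_empty]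
    exact h3
  obtain ⟨α, β, hαβ⟩ := Submodule.mem_span_pair.mp hspan
  have hTi : ∀ i, T i = α * U i + β * U' i := by
    intro i
    rw [← hαβ]
    rfl
  -- the field L
  have hL : ∃ θ : Ω, rat E T ≤ ext1 (rat E x) θ := by
    by_cases hα : α = 0
    · refine ⟨0, ?_⟩
      have hβ : β ≠ 0 := by
        intro hβ
        apply hT
        funext i
        rw [hTi, hα, hβ, zero_mul, zero_mul, add_zero]
        rfl
      have h3 : T = fun i => β * U' i := by
        funext i
        rw [hTi, hα, zero_mul, zero_add]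
      rw [h3, rat_smul hβ]
      exact rat_le65 U' _ (fun i => le_ext1 _ _ (hUm' i))
    · refine ⟨β / α, ?_⟩
      have h3 : T = fun i => α * (U i + β / α * U' i) := by
        funext i
        rw [hTi]
        field_simp
      rw [h3, rat_smul hα]
      exact rat_le65 _ _ (fun i => add_mem (le_ext1 _ _ (hUm i))
        (mul_mem (mem_ext1 _ _) (le_ext1 _ _ (hUm' i))))
  obtain ⟨θ, hθ⟩ := hL
  have hdimL : Algebra.trdeg E (ext1 (rat E x) θ) ≤ ((4 + 1 : ℕ) : Cardinal) :=
    trdeg_ext1 (rat E x) θ 4 hdim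
  have hz1L : ∀ i, z1 i ∈ ext1 (rat E x) θ := fun i => hθ (hz1 i)
  have hz2L : ∀ i, z2 i ∈ ext1 (rat E x) θ := fun i => hθ (hz2 i)
  have htL : t ∈ ext1 (rat E x) θ := by
    by_cases hk : x k0 = 0
    · have h3 : z1 k0 + t * z2 k0 = 0 := by rw [← hx', hk]
      have h4 : z2 k0 ≠ 0 := by
        intro h5
        rw [h5, mul_zero, add_zero] at h3
        apply hik
        rw [h3, h5]
        ring
      have h5 : t = -(z1 k0) / z2 k0 := by
        rw [eq_div_iff h4]
        linear_combination h3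
      rw [h5]
      exact div_mem (neg_mem (hz1L k0)) (hz2L k0)
    · obtain ⟨r, hr⟩ : ∃ r : Ω, r = x i0 / x k0 := ⟨_, rfl⟩
      have hrL : r ∈ ext1 (rat E x) θ := by
        rw [hr]
        exact le_ext1 _ _ (ratio_mem65 x i0 k0)
      have h3 : x i0 = r * x k0 := by
        rw [hr, div_mul_cancel₀ _ hk]
      rw [hx', hx'] at h3
      have h4 : z2 i0 - r * z2 k0 ≠ 0 := by
        intro h5
        apply hik
        linear_combination z2 k0 * h3 - (z2 k0 * t + z1 k0) * h5
      have h5 : t = (r * z1 k0 - z1 i0) / (z2 i0 - r * z2 k0) := by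
        rw [eq_div_iff h4]
        linear_combination h3
      rw [h5]
      exact div_mem (sub_mem (mul_mem hrL (hz1L k0)) (hz1L i0))
        (sub_mem (hz2L i0) (mul_mem hrL (hz2L k0)))
  exact trdeg_lt_of_transcendental (rat E T) (ext1 (rat E x) θ) hθ t htL ht 4 hdimL

/-! ### a transcendental element -/

theorem exists_transcendental65 (F : Type) [Field F] :
    ∃ (Ω : Type) (_ : Field Ω) (_ : Algebra F Ω) (t : Ω), Transcendental F t :=
  ⟨RatFunc F, inferInstance, inferInstance, RatFunc.X, RatFunc.transcendental_X⟩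

theorem transcendental_of_le65 {E F Ω : Type} [Field E] [Field F] [Field Ω] [Algebra E F]
    [Algebra F Ω] [Algebra E Ω] [IsScalarTower E F Ω] (C : IntermediateField E Ω)
    (hC : ∀ z ∈ C, ∃ y : F, algebraMap F Ω y = z) (t : Ω) (ht : Transcendental F t) :
    Transcendental C t := by
  have hinj : Function.Injective (algebraMap F Ω) := (algebraMap F Ω).injective
  choose! g hg using hC
  let ρ : C →+* F :=
    { toFun := fun z => g z.1
      map_one' := hinj (by
        show algebraMap F Ω (g 1) = _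
        rw [hg _ (C.one_mem), map_one])
      map_mul' := fun a b => hinj (by
        show algebraMap F Ω (g ((a * b : C) : Ω)) = _
        rw [hg _ (a * b).2, map_mul, hg _ a.2, hg _ b.2]
        rfl)
      map_zero' := hinj (by
        show algebraMap F Ω (g 0) = _
        rw [hg _ (C.zero_mem), map_zero])
      map_add' := fun a b => hinj (by
        show algebraMap F Ω (g ((a + b : C) : Ω)) = _
        rw [hg _ (a + b).2, map_add, hg _ a.2, hg _ b.2]
        rfl) }
  rintro ⟨p, hp0, hp⟩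
  apply ht
  refine ⟨p.map ρ, ?_, ?_⟩
  · rw [Ne, Polynomial.map_eq_zero]
    exact hp0
  · rw [Polynomial.aeval_def, Polynomial.eval₂_map]
    rw [Polynomial.aeval_def] at hp
    rw [← hp]
    congr 1
    ext z
    exact hg _ z.2

/-! ### the row -/

theorem grk (pdt : PdtStmt) (evk : EvkStmt) (adj : AdjStmt) (crk : CrkStmt) (hsd : HsdStmt)
    (gtd : GtdStmt) : GrkStmt := by
  intro E _ _ f m c hf hns hpf h0
  have hg0 : gen E 4 0 ≠ 0 := by
    intro h
    have h1 : algebraMap (MvPolynomial (Fin (4 + 2)) E) (FT E 4) (X 0) = 0 := h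
    rw [map_eq_zero_iff _ (IsFractionRing.injective _ _)] at h1
    exact X_ne_zero _ h1
  -- the point over the field of ratios
  obtain ⟨tc, htc⟩ : ∃ tc : Fin (4 + 2) → rat E (gen E 4),
      ∀ i, ((tc i : rat E (gen E 4)) : FT E 4) = gen E 4 i / gen E 4 0 :=
    ⟨fun i => ⟨gen E 4 i / gen E 4 0, ratio_mem65 _ i 0⟩, fun i => rfl⟩
  have hmap : (nm E m tc).map (rat E (gen E 4)).val = (gen E 4 0)⁻¹ • nm E m (gen E 4) := by
    rw [← nm_map, ← nm_smul]
    congr 1
    funext i
    show ((tc i : rat E (gen E 4)) : FT E 4) = _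
    rw [htc, div_eq_inv_mul]
  have hadj : (nm E m tc).adjugate = 0 := by
    have h1 := AlgHom.map_adjugate (rat E (gen E 4)).val (nm E m tc)
    have h2 : (rat E (gen E 4)).val.mapMatrix (nm E m tc) = (gen E 4 0)⁻¹ • nm E m (gen E 4) :=
      hmap
    rw [h2, Matrix.adjugate_smul, h0, smul_zero] at h1
    ext i k
    have h3 : (rat E (gen E 4)).val ((nm E m tc).adjugate i k) = 0 := congrFun (congrFun h1 i) k
    have h4 := (map_eq_zero (rat E (gen E 4)).val).mp h3
    rw [h4]
    rfl
  obtain ⟨a, b, hli, ha, hb⟩ := (adj (rat E (gen E 4)) (nm E m tc)).mp hadj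
  rw [nm_mulVec] at ha hb
  obtain ⟨i0, k0, hik⟩ := minor_of_li65 hli
  -- the big field
  obtain ⟨Ω, iF, iA, t, ht⟩ := exists_transcendental65 (FT E 4)
  let iE : Algebra E Ω := ((algebraMap (FT E 4) Ω).comp (algebraMap E (FT E 4))).toAlgebra
  have iT : IsScalarTower E (FT E 4) Ω := IsScalarTower.of_algebraMap_eq' rfl
  let j : FT E 4 →ₐ[E] Ω := IsScalarTower.toAlgHom E (FT E 4) Ω
  let j1 : rat E (gen E 4) →ₐ[E] Ω := j.comp (rat E (gen E 4)).val
  have hTj : (fun i => j1 (tc i)) = fun i => j ((gen E 4 0)⁻¹ * gen E 4 i) := by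
    funext i
    show j ((tc i : rat E (gen E 4)) : FT E 4) = _
    rw [htc, div_eq_inv_mul]
  have hrat : rat E (fun i => j1 (tc i)) = (rat E (gen E 4)).map j := by
    rw [hTj, rat_map, rat_smul (inv_ne_zero hg0)]
  have hmem : ∀ z : rat E (gen E 4), j1 z ∈ rat E (fun i => j1 (tc i)) := by
    intro z
    rw [hrat]
    exact ⟨(z : FT E 4), z.2, rfl⟩
  have hpm : ∀ w : Fin (4 + 2) → rat E (gen E 4), (pm E m w).mulVec tc = 0 →
      (pm E m (fun i => j1 (w i))).mulVec (fun i => j1 (tc i)) = 0 := by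
    intro w hw
    rw [pm_map]
    funext i
    have h5 := RingHom.map_mulVec j1.toRingHom (pm E m w) tc i
    rw [hw] at h5
    have h6 : j1.toRingHom ((0 : Fin (4 + 2) → rat E (gen E 4)) i) = 0 := map_zero _
    rw [h6] at h5
    exact h5.symm
  have hd : DimLe E (fun i => j1 (tc i)) 4 := by
    apply grk_core65 pdt evk crk hsd E f m c hf hns hpf Ω (fun i => j1 (tc i))
      (fun i => j1 (a i)) (fun i => j1 (b i)) t
    · intro h1
      have h2 : j1 (tc 0) = 0 := congrFun h1 0
      have h3 := (map_eq_zero j1).mp h2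
      have h4 := htc 0
      rw [h3, div_self hg0] at h4
      exact zero_ne_one h4
    · exact fun i => hmem (a i)
    · exact fun i => hmem (b i)
    · show j1 (a i0) * j1 (b k0) - j1 (a k0) * j1 (b i0) ≠ 0
      rw [← map_mul, ← map_mul, ← map_sub, Ne, map_eq_zero]
      exact hik
    · exact hpm a ha
    · exact hpm b hb
    · apply transcendental_of_le65 (E := E) (F := FT E 4) (rat E (fun i => j1 (tc i))) _ t ht
      intro z hz
      rw [hrat] at hz
      obtain ⟨y, _, hy⟩ := hz
      exact ⟨y, hy⟩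
  rw [hTj, dimLe_map] at hd
  have hd' : DimLe E (gen E 4) 4 := by
    unfold DimLe at hd ⊢
    rw [rat_smul (inv_ne_zero hg0)] at hd
    exact hd
  have := gtd E 4 4 hd'
  omega

end Pool.Agent.SCT.H65
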